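import Pool.Agent.MVO.StmtsN

/-!
Squad MVO (MP_23468a_al): row NCE, second clause of class a over `O2`.  All relations of the
functorial congruence are reduced to two and three blocks by explicit maps.
-/

set_option autoImplicit false

namespace Pool.Agent.MVO.H51

open Pool.Agent.Helper14_MV Pool.Agent.Helper2_MV Pool.Agent.MVO

/-! ### small maps of blocks -/

theorem psh3 (f x : ℕ → ℕ) (j : ℕ) : psh 3 f x j = (if f 0 = j then x 0 else 0) +
    (if f 1 = j then x 1 else 0) + (if f 2 = j then x 2 else 0) + (if f 3 = j then x 3 else 0) := by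
  simp only [psh, Finset.sum_range_succ, Finset.sum_range_zero, zero_add]

theorem psh2 (f x : ℕ → ℕ) (j : ℕ) : psh 2 f x j = (if f 0 = j then x 0 else 0) +
    (if f 1 = j then x 1 else 0) + (if f 2 = j then x 2 else 0) := by
  simp only [psh, Finset.sum_range_succ, Finset.sum_range_zero, zero_add]

theorem psh1 (f x : ℕ → ℕ) (j : ℕ) : psh 1 f x j = (if f 0 = j then x 0 else 0) +
    (if f 1 = j then x 1 else 0) := by
  simp only [psh, Finset.sum_range_succ, Finset.sum_range_zero, zero_add]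

theorem deg3 (x : ℕ → ℕ) : deg 3 x = x 0 + x 1 + x 2 + x 3 := by
  simp only [deg, Finset.sum_range_succ, Finset.sum_range_zero, zero_add]

theorem deg2 (x : ℕ → ℕ) : deg 2 x = x 0 + x 1 + x 2 := by
  simp only [deg, Finset.sum_range_succ, Finset.sum_range_zero, zero_add]

theorem deg1 (x : ℕ → ℕ) : deg 1 x = x 0 + x 1 := by
  simp only [deg, Finset.sum_range_succ, Finset.sum_range_zero, zero_add]

theorem bmap4 {k' a b c d : ℕ} (h1 : a ≤ b) (h2 : b ≤ c) (h3 : c ≤ d) (h4 : d ≤ k') :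
    BMap 3 k' (v4 a b c d) where
  mono := by
    intro i j hij hj
    interval_cases j <;> interval_cases i <;> simp [v4] <;> omega
  le := by
    intro i hi
    interval_cases i <;> simp [v4] <;> omega

theorem bmap3 {k' a b c : ℕ} (h1 : a ≤ b) (h2 : b ≤ c) (h3 : c ≤ k') :
    BMap 2 k' (v3 a b c) where
  mono := by
    intro i j hij hj
    interval_cases j <;> interval_cases i <;> simp [v3] <;> omega
  le := by
    intro i hi
    interval_cases i <;> simp [v3] <;> omega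

theorem bmap2 {k' a b : ℕ} (h1 : a ≤ b) (h2 : b ≤ k') : BMap 1 k' (v2 a b) where
  mono := by
    intro i j hij hj
    interval_cases j <;> interval_cases i <;> simp [v2] <;> omega
  le := by
    intro i hi
    interval_cases i <;> simp [v2] <;> omega

theorem sp_max {k : ℕ} {x : ℕ → ℕ} (h : x k ≠ 0) : (sp k x).max = (k : WithBot ℕ) := by
  rw [Nat.cast_withBot]
  apply le_antisymm
  · refine Finset.max_le fun a ha => ?_
    unfold sp at ha
    rw [Finset.mem_filter, Finset.mem_range] at ha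
    exact WithBot.coe_le_coe.2 (by omega)
  · refine Finset.le_max ?_
    unfold sp
    rw [Finset.mem_filter, Finset.mem_range]
    exact ⟨by omega, h⟩

theorem pushR (R : FC) {k : ℕ} (k' : ℕ) (f : ℕ → ℕ) (hf : BMap k k' f) {a b c d : ℕ → ℕ}
    (h : R.R k a b) (hc : ∀ j ≤ k', psh k f a j = c j) (hd : ∀ j ≤ k', psh k f b j = d j) :
    R.R k' c d := R.ext hc hd (R.push k' f hf h)

/-! ### relations in degree 3 -/

section
variable (R : FC)

theorem two (hO1 : O1 R) (hO2 : O2 R) {p q : ℕ} (h : p + q = 3) (hq : 1 ≤ q) :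
    R.R 1 (v2 p q) (v2 0 3) := by
  have hq3 : q ≤ 3 := by omega
  interval_cases q
  · have : p = 2 := by omega
    subst this
    exact R.trans hO1 hO2
  · have : p = 1 := by omega
    subst this
    exact hO2
  · have : p = 0 := by omega
    subst this
    exact R.refl _ _

theorem three0 (hO1 : O1 R) (hO2 : O2 R) {p r : ℕ} (h : p + r = 3) (hr : 1 ≤ r) :
    R.R 2 (v3 p 0 r) (v3 0 0 3) := by
  refine pushR R 2 (v2 0 2) (bmap2 (by omega) (by omega)) (two R hO1 hO2 h hr) ?_ ?_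
  · intro j hj; interval_cases j <;> simp [psh1, v2, v3]
  · intro j hj; interval_cases j <;> simp [psh1, v2, v3]

theorem three1 (hO1 : O1 R) (hO2 : O2 R) {q r : ℕ} (h : q + r = 3) (hr : 1 ≤ r) :
    R.R 2 (v3 0 q r) (v3 0 0 3) := by
  refine pushR R 2 (v2 1 2) (bmap2 (by omega) (by omega)) (two R hO1 hO2 h hr) ?_ ?_
  · intro j hj; interval_cases j <;> simp [psh1, v2, v3]
  · intro j hj; interval_cases j <;> simp [psh1, v2, v3]

theorem three (hO1 : O1 R) (hO2 : O2 R) {p q r : ℕ} (h : p + q + r = 3) (hr : 1 ≤ r)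
    (hn : ¬ (p = 1 ∧ q = 1)) : R.R 2 (v3 p q r) (v3 0 2 1) := by
  have h0 := three1 R hO1 hO2 (q := 2) (r := 1) (by omega) (by omega)
  have hpq : p = 0 ∨ q = 0 := by omega
  rcases hpq with rfl | rfl
  · exact R.trans (three1 R hO1 hO2 (by omega) hr) (R.symm h0)
  · exact R.trans (three0 R hO1 hO2 (by omega) hr) (R.symm h0)

theorem iso21 (hO1 : ¬ O1 R) (hO2 : O2 R) (hO3 : ¬ O3 R) {p q : ℕ} (h : p + q = 3)
    (h1 : R.R 1 (v2 2 1) (v2 p q)) : p = 2 ∧ q = 1 := by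
  have hp3 : p ≤ 3 := by omega
  interval_cases p
  · have : q = 3 := by omega
    subst this
    exact absurd (R.trans h1 (R.symm hO2)) hO1
  · have : q = 2 := by omega
    subst this
    exact absurd h1 hO1
  · exact ⟨rfl, by omega⟩
  · have : q = 0 := by omega
    subst this
    exact absurd (R.symm h1) hO3

theorem cut0 {x x' : ℕ → ℕ} (h : R.R 3 x x') :
    R.R 1 (v2 (x 0) (x 1 + x 2 + x 3)) (v2 (x' 0) (x' 1 + x' 2 + x' 3)) := by
  refine pushR R 1 (v4 0 1 1 1) (bmap4 (by omega) (by omega) (by omega) (by omega)) h ?_ ?_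
  · intro j hj; interval_cases j <;> simp [psh3, v4, v2]
  · intro j hj; interval_cases j <;> simp [psh3, v4, v2]

theorem cut1 {x x' : ℕ → ℕ} (h : R.R 3 x x') :
    R.R 1 (v2 (x 0 + x 1) (x 2 + x 3)) (v2 (x' 0 + x' 1) (x' 2 + x' 3)) := by
  refine pushR R 1 (v4 0 0 1 1) (bmap4 (by omega) (by omega) (by omega) (by omega)) h ?_ ?_
  · intro j hj; interval_cases j <;> simp [psh3, v4, v2]
  · intro j hj; interval_cases j <;> simp [psh3, v4, v2]

theorem cut2 {x x' : ℕ → ℕ} (h : R.R 3 x x') :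
    R.R 1 (v2 (x 0 + x 1 + x 2) (x 3)) (v2 (x' 0 + x' 1 + x' 2) (x' 3)) := by
  refine pushR R 1 (v4 0 0 0 1) (bmap4 (by omega) (by omega) (by omega) (by omega)) h ?_ ?_
  · intro j hj; interval_cases j <;> simp [psh3, v4, v2]
  · intro j hj; interval_cases j <;> simp [psh3, v4, v2]

theorem mid01 {x x' : ℕ → ℕ} (h : R.R 3 x x') :
    R.R 2 (v3 (x 0 + x 1) (x 2) (x 3)) (v3 (x' 0 + x' 1) (x' 2) (x' 3)) := by
  refine pushR R 2 (v4 0 0 1 2) (bmap4 (by omega) (by omega) (by omega) (by omega)) h ?_ ?_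
  · intro j hj; interval_cases j <;> simp [psh3, v4, v3]
  · intro j hj; interval_cases j <;> simp [psh3, v4, v3]

theorem mid12 {x x' : ℕ → ℕ} (h : R.R 3 x x') :
    R.R 2 (v3 (x 0) (x 1 + x 2) (x 3)) (v3 (x' 0) (x' 1 + x' 2) (x' 3)) := by
  refine pushR R 2 (v4 0 1 1 2) (bmap4 (by omega) (by omega) (by omega) (by omega)) h ?_ ?_
  · intro j hj; interval_cases j <;> simp [psh3, v4, v3]
  · intro j hj; interval_cases j <;> simp [psh3, v4, v3]

theorem cl_O1 (hO1 : O1 R) (hO2 : O2 R) (hO3 : ¬ O3 R) {x x' : ℕ → ℕ}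
    (h : R.R 3 x x') (hd : deg 3 x = 3) (hd' : deg 3 x' = 3) (hx : 1 ≤ x 3) : 1 ≤ x' 3 := by
  by_contra hc
  have h3 : x' 3 = 0 := by omega
  rw [deg3] at hd hd'
  have h1 := cut2 R h
  have e : x' 0 + x' 1 + x' 2 = 3 := by omega
  rw [e, h3] at h1
  have h2 := two R hO1 hO2 (p := x 0 + x 1 + x 2) (q := x 3) (by omega) hx
  have h4 := two R hO1 hO2 (p := 2) (q := 1) (by omega) (by omega)
  exact hO3 (R.trans (R.trans (R.symm h1) h2) (R.symm h4))

theorem cl_N1 (hO1 : ¬ O1 R) (hO2 : O2 R) (hO3 : ¬ O3 R) {x x' : ℕ → ℕ}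
    (h : R.R 3 x x') (hd' : deg 3 x' = 3) (hx : x 0 ≤ 1) (hx1 : x 0 + x 1 = 2) (hx2 : x 2 = 0)
    (hx3 : x 3 = 1) : x' 0 ≤ 1 ∧ x' 0 + x' 1 = 2 ∧ x' 2 = 0 ∧ x' 3 = 1 := by
  rw [deg3] at hd'
  have h1 := cut1 R h
  have e1 : x 2 + x 3 = 1 := by omega
  rw [hx1, e1] at h1
  obtain ⟨a1, a2⟩ := iso21 R hO1 hO2 hO3 (by omega) h1
  have h2 := cut2 R h
  have e2 : x 0 + x 1 + x 2 = 2 := by omega
  rw [e2, hx3] at h2
  obtain ⟨a3, a4⟩ := iso21 R hO1 hO2 hO3 (by omega) h2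
  have h0 := cut0 R h
  refine ⟨?_, a1, by omega, a4⟩
  by_contra hc
  have e3 : x' 0 = 2 := by omega
  have e4 : x' 1 + x' 2 + x' 3 = 1 := by omega
  rw [e3, e4] at h0
  obtain ⟨a5, -⟩ := iso21 R hO1 hO2 hO3 (by omega) (R.symm h0)
  omega

theorem cl_T1 (hO2 : O2 R) (hO3 : ¬ O3 R) (hJ : ¬ JJ R) {x x' : ℕ → ℕ} (h : R.R 3 x x')
    (hd' : deg 3 x' = 3) (h0 : x 0 = 1) (h1 : x 1 = 1) (h2 : x 2 = 0) (h3 : x 3 = 1) :
    x' 0 = 1 ∧ x' 1 = 1 ∧ x' 2 = 0 ∧ x' 3 = 1 := by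
  have hd : deg 3 x = 3 := by rw [deg3]; omega
  have hm := mid12 R h
  have e1 : x 1 + x 2 = 1 := by omega
  rw [h0, e1, h3] at hm
  by_cases hO1 : O1 R
  · have a3 := cl_O1 R hO1 hO2 hO3 h hd hd' (by omega)
    rw [deg3] at hd'
    have b1 : x' 0 = 1 ∧ x' 1 + x' 2 = 1 := by
      by_contra hc
      exact hJ (R.trans hm (three R hO1 hO2 (by omega) a3 hc))
    obtain ⟨b1, b2⟩ := b1
    have b3 : x' 2 = 0 := by
      by_contra hc
      have c1 : x' 2 = 1 := by omega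
      have c2 : x' 1 = 0 := by omega
      have c3 : x' 3 = 1 := by omega
      have hn := mid01 R h
      rw [h0, h1, h2, h3, b1, c1, c2, c3] at hn
      have c4 := three R hO1 hO2 (p := 2) (q := 0) (r := 1) (by omega) (by omega) (by omega)
      exact hJ (R.trans (R.symm hn) c4)
    exact ⟨b1, by omega, b3, by omega⟩
  · obtain ⟨a0, a1, a2, a3⟩ := cl_N1 R hO1 hO2 hO3 h hd' (by omega) (by omega) h2 h3
    have b0 : x' 0 = 1 := by
      by_contra hc
      have c0 : x' 0 = 0 := by omega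
      have c1 : x' 1 + x' 2 = 2 := by omega
      rw [c0, c1, a3] at hm
      exact hJ hm
    exact ⟨b0, by omega, a2, a3⟩

end

/-! ### the two sets of pairs of types -/

/-- the first set -/
def TA (x y : ℕ → ℕ) : Prop :=
  (x 0 = 1 ∧ x 1 = 1 ∧ x 2 = 0 ∧ x 3 = 1) ∧ (y 0 = 0 ∧ y 1 = 0 ∧ y 2 = 1 ∧ y 3 = 1)

/-- the second set -/
def TB (P : Prop) (x y : ℕ → ℕ) : Prop :=
  (y 0 = 0 ∧ y 1 = 0 ∧ y 2 = 1 ∧ y 3 = 1) ∧ x 0 + x 1 + x 2 + x 3 = 3 ∧ 1 ≤ x 3 ∧
    (P ∨ (x 0 ≤ 1 ∧ x 0 + x 1 = 2 ∧ x 2 = 0 ∧ x 3 = 1))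

theorem TA_ext : TExt 3 TA := by
  intro a a' b b' h h' hT
  unfold TA at hT ⊢
  rw [← h 0 (by omega), ← h 1 (by omega), ← h 2 (by omega), ← h 3 (by omega),
    ← h' 0 (by omega), ← h' 1 (by omega), ← h' 2 (by omega), ← h' 3 (by omega)]
  exact hT

theorem TB_ext (P : Prop) : TExt 3 (TB P) := by
  intro a a' b b' h h' hT
  unfold TB at hT ⊢
  rw [← h 0 (by omega), ← h 1 (by omega), ← h 2 (by omega), ← h 3 (by omega),
    ← h' 0 (by omega), ← h' 1 (by omega), ← h' 2 (by omega), ← h' 3 (by omega)]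
  exact hT

theorem TA_deg : TDeg 3 TA := by
  intro a b h
  unfold TA at h
  rw [deg3, deg3]
  omega

theorem TB_deg (P : Prop) : TDeg 3 (TB P) := by
  intro a b h
  unfold TB at h
  rw [deg3, deg3]
  omega

theorem TA_last : TLast 3 3 TA := by
  intro a b h
  have h1 := TA_deg a b h
  unfold TA at h
  exact ⟨by omega, by omega, sp_max (by omega), sp_max (by omega)⟩

theorem TB_last (P : Prop) : TLast 3 3 (TB P) := by
  intro a b h
  have h1 := TB_deg P a b h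
  unfold TB at h
  exact ⟨by omega, by omega, sp_max (by omega), sp_max (by omega)⟩

theorem fm_rep (m : ℕ) : (List.replicate m 0).flatMap (fun c => if c = 1 then [2] else [c]) =
    List.replicate m 0 := by
  induction m with
  | zero => rfl
  | succ m ih => rw [List.replicate_succ, List.flatMap_cons, ih]; rfl

theorem cent_v {β : FIC} (h : Cent β) :
    ∃ K, ∀ m, K ≤ m → (FC.ofFIC β).R 1 (v2 m 0) (v2 0 m) := by
  obtain ⟨K, hK⟩ := h
  refine ⟨K, fun m hm => ?_⟩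
  have h1 := (hK m hm).sub (fun c => if c = 1 then [2] else [c])
  simp only [List.flatMap_append, List.flatMap_cons, fm_rep] at h1
  have h2 : (FC.ofFIC β).R 1 (v2 m 0) (v2 0 m) = L1 β 1 (v2 m 0) (v2 0 m) := rfl
  rw [h2]
  unfold L1 mw asm asm
  simpa [v2] using h1

/-! ### the row -/

/-- NCE. -/
theorem nce (hLNN : LnnStmt) (hGTB : GtbStmt) (hGTN : GtnStmt) (hGTS : GtsStmt)
    (hGTK : GtkStmt) (hGAA : GaaStmt) (hRGA : RgaStmt) (hWUB : WubStmt) (_hOAA : OaaStmt)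
    (_hOAR : OarStmt) (_hOPF : OpfStmt) (_hOCR : OcrStmt) (hISO : IsoStmt) (hFAA : FaaStmt) :
    NceStmt := by
  intro β H hO2 hO3
  by_contra hcon
  rw [not_or] at hcon
  obtain ⟨hJ, hv⟩ := hcon
  have hNC : NC2 β := by
    intro h
    have := iso_ab H.iso (a := 0) (b := 1) (by decide) h
    simp at this
  obtain ⟨F0, F2, F3, F4, F5, F6⟩ := hFAA β H.cl
  -- degrees
  have hdeg : ∀ x x' : ℕ → ℕ, deg 3 x = 3 → L1 β 3 x x' →
      deg 3 x' = 3 ∨ (FC.ofFIC β).R 3 x (sg 0 3) := by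
    intro x x' hd h
    by_cases hd' : deg 3 x' = 3
    · exact Or.inl hd'
    · right
      have h1 := (hWUB (FC.ofFIC β) hO2 (cent_v H.ce) 3 x x' (by omega) (by omega) h).1 0
        (by omega)
      rwa [hd] at h1
  have hsg : deg 3 (sg 0 3) = 3 := by simp [deg3, sg]
  have hsg0 : sg 0 3 0 = 3 := by simp [sg]
  have hsg3 : sg 0 3 3 = 0 := by simp [sg]
  have hdegA : ∀ x x' : ℕ → ℕ, x 0 = 1 ∧ x 1 = 1 ∧ x 2 = 0 ∧ x 3 = 1 → L1 β 3 x x' →
      deg 3 x' = 3 := by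
    intro x x' hx h
    rcases hdeg x x' (by rw [deg3]; omega) h with h1 | h1
    · exact h1
    · have h2 := cl_T1 (FC.ofFIC β) hO2 hO3 hJ h1 hsg hx.1 hx.2.1 hx.2.2.1 hx.2.2.2
      omega
  have hy : ∀ y y' : ℕ → ℕ, y 0 = 0 ∧ y 1 = 0 ∧ y 2 = 1 ∧ y 3 = 1 → L1 β 3 y y' →
      y' 0 = 0 ∧ y' 1 = 0 ∧ y' 2 = 1 ∧ y' 3 = 1 := by
    intro y y' hy h
    have h1 := hISO β H.th H.iso 3 y y' (by rw [deg3]; omega) (by
      intro j hj
      interval_cases j <;> omega) h
    rw [h1 0 (by omega), h1 1 (by omega), h1 2 (by omega), h1 3 (by omega)]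
    exact hy
  -- closure
  have clA : ∀ a b a' b', TA a b → L1 β 3 a a' → L1 β 3 b b' → TA a' b' := by
    intro a b a' b' hT ha hb
    refine ⟨?_, hy b b' hT.2 hb⟩
    exact cl_T1 (FC.ofFIC β) hO2 hO3 hJ ha (hdegA a a' hT.1 ha) hT.1.1 hT.1.2.1 hT.1.2.2.1
      hT.1.2.2.2
  have clB : ∀ a b a' b', TB (O1 (FC.ofFIC β)) a b → L1 β 3 a a' → L1 β 3 b b' →
      TB (O1 (FC.ofFIC β)) a' b' := by
    intro a b a' b' hT ha hb
    obtain ⟨t1, t2, t3, t4⟩ := hT
    refine ⟨hy b b' t1 hb, ?_⟩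
    have hd : deg 3 a = 3 := by rw [deg3]; exact t2
    by_cases hO1 : O1 (FC.ofFIC β)
    · have hd' : deg 3 a' = 3 := by
        rcases hdeg a a' hd ha with h1 | h1
        · exact h1
        · have h2 := cl_O1 (FC.ofFIC β) hO1 hO2 hO3 h1 hd hsg t3
          omega
      refine ⟨by rw [← deg3]; exact hd', ?_, Or.inl hO1⟩
      exact cl_O1 (FC.ofFIC β) hO1 hO2 hO3 ha hd hd' t3
    · rcases t4 with t4 | t4
      · exact absurd t4 hO1
      · have hd' : deg 3 a' = 3 := by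
          rcases hdeg a a' hd ha with h1 | h1
          · exact h1
          · have h2 := cl_N1 (FC.ofFIC β) hO1 hO2 hO3 h1 hsg t4.1 t4.2.1 t4.2.2.1 t4.2.2.2
            omega
        have h2 := cl_N1 (FC.ofFIC β) hO1 hO2 hO3 ha hd' t4.1 t4.2.1 t4.2.2.1 t4.2.2.2
        exact ⟨by rw [← deg3]; exact hd', by omega, Or.inr h2⟩
  -- no exchange
  have nex : ∀ x y : ℕ → ℕ, x 0 + x 1 = 2 ∧ x 2 = 0 ∧ x 3 = 1 →
      y 0 = 0 ∧ y 1 = 0 ∧ y 2 = 1 ∧ y 3 = 1 → ¬ Bt β 3 x y 3 := by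
    intro x y hx hy hB
    apply hv
    have h1 := F4 3 2 (v4 0 0 1 2) x y 3 (bmap4 (by omega) (by omega) (by omega) (by omega))
      (by rw [deg3]; omega) (by rw [deg3]; omega) (by omega) (sp_max (by omega))
      (sp_max (by omega)) hB
    have e1 : psh 3 (v4 0 0 1 2) x = v3 2 0 1 := by
      funext j
      rw [psh3]
      match j with
      | 0 => simp [v4, v3, hx.1]
      | 1 => simp [v4, v3, hx.2.1]
      | 2 => simp [v4, v3, hx.2.2]
      | (n + 3) => simp [v4, v3]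
    have e2 : psh 3 (v4 0 0 1 2) y = v3 0 1 1 := by
      funext j
      rw [psh3]
      match j with
      | 0 => simp [v4, v3, hy.1, hy.2.1]
      | 1 => simp [v4, v3, hy.2.2.1]
      | 2 => simp [v4, v3, hy.2.2.2]
      | (n + 3) => simp [v4, v3]
    rw [e1, e2] at h1
    exact h1
  have nexO : O1 (FC.ofFIC β) → ∀ x y : ℕ → ℕ, x 0 + x 1 + x 2 + x 3 = 3 → 1 ≤ x 3 →
      y 0 = 0 ∧ y 1 = 0 ∧ y 2 = 1 ∧ y 3 = 1 → ¬ Bt β 3 x y 3 := by
    intro hO1 x y hx hx3 hy hB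
    apply hv
    have h1 := F4 3 1 (v4 0 0 0 1) x y 3 (bmap4 (by omega) (by omega) (by omega) (by omega))
      (by rw [deg3]; omega) (by rw [deg3]; omega) (by omega) (sp_max (by omega))
      (sp_max (by omega)) hB
    have e1 : psh 3 (v4 0 0 0 1) x = v2 (x 0 + x 1 + x 2) (x 3) := by
      funext j
      rw [psh3]
      match j with
      | 0 => simp [v4, v2]
      | 1 => simp [v4, v2]
      | (n + 2) => simp [v4, v2]
    have e2 : psh 3 (v4 0 0 0 1) y = v2 1 1 := by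
      funext j
      rw [psh3]
      match j with
      | 0 => simp [v4, v2, hy.1, hy.2.1, hy.2.2.1]
      | 1 => simp [v4, v2, hy.2.2.2]
      | (n + 2) => simp [v4, v2]
    rw [e1, e2] at h1
    have h2 := F2 1 _ _ _ _ ((FC.ofFIC β).symm (two (FC.ofFIC β) hO1 hO2 (by omega) hx3)) h1
    have h3 := F4 1 2 (v2 1 2) (v2 0 3) (v2 1 1) 1 (bmap2 (by omega) (by omega))
      (by simp [deg1, v2]) (by simp [deg1, v2]) (by omega) (sp_max (by simp [v2]))
      (sp_max (by simp [v2])) h2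
    have e3 : psh 1 (v2 1 2) (v2 0 3) = v3 0 0 3 := by
      funext j
      rw [psh1]
      match j with
      | 0 => simp [v2, v3]
      | 1 => simp [v2, v3]
      | 2 => simp [v2, v3]
      | (n + 3) => simp [v2, v3]
    have e4 : psh 1 (v2 1 2) (v2 1 1) = v3 0 1 1 := by
      funext j
      rw [psh1]
      match j with
      | 0 => simp [v2, v3]
      | 1 => simp [v2, v3]
      | 2 => simp [v2, v3]
      | (n + 3) => simp [v2, v3]
    rw [e3, e4] at h3
    exact F2 2 _ _ _ _ (three0 (FC.ofFIC β) hO1 hO2 (p := 2) (r := 1) (by omega) (by omega)) h3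
  have noA : ∀ a b, TA a b → ¬ Bt β 3 a b 3 := fun a b hT =>
    nex a b ⟨by have := hT.1; omega, hT.1.2.2.1, hT.1.2.2.2⟩ hT.2
  have noB : ∀ a b, TB (O1 (FC.ofFIC β)) a b → ¬ Bt β 3 a b 3 := by
    intro a b hT
    obtain ⟨t1, t2, t3, t4⟩ := hT
    rcases t4 with t4 | t4
    · exact nexO t4 a b t2 t3 t1
    · exact nex a b ⟨t4.2.1, t4.2.2.1, t4.2.2.2⟩ t1
  have leA : β ≤ GT 3 TA := hGTB β H.th hNC H.cl 3 3 TA TA_ext TA_last clA noA
  have leB : β ≤ GT 3 (TB (O1 (FC.ofFIC β))) :=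
    hGTB β H.th hNC H.cl 3 3 _ (TB_ext _) (TB_last _) clB noB
  -- the exchange in `G1`
  have clG : ClA (GT 3 TA) := ⟨leA _ _ H.cl.s1, leA _ _ H.cl.s2⟩
  obtain ⟨-, -, -, G4, -, -⟩ := hFAA (GT 3 TA) clG
  have x1 : Bt (GT 3 TA) 2 (v3 2 0 1) (v3 0 1 1) 2 := by
    refine hGTS 3 TA TA_ext TA_deg 2 _ _ (by simp [deg2, v3]) (by simp [deg2, v3]) ?_ 2
    intro f hf hT
    have h1 := hT.1
    have hle := hf.le 0 (by omega)
    simp only [psh2, v3] at h1
    generalize f 0 = p at h1 hle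
    generalize f 1 = q at h1
    generalize f 2 = r at h1
    interval_cases p <;> simp at h1
    all_goals omega
  have x2 : Bt (GT 3 TA) 3 (v4 0 2 0 1) (v4 0 0 1 1) 3 := by
    have h1 := G4 2 3 (v3 1 2 3) (v3 2 0 1) (v3 0 1 1) 2 (bmap3 (by omega) (by omega) (by omega))
      (by simp [deg2, v3]) (by simp [deg2, v3]) (by omega) (sp_max (by simp [v3]))
      (sp_max (by simp [v3])) x1
    have e1 : psh 2 (v3 1 2 3) (v3 2 0 1) = v4 0 2 0 1 := by
      funext j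
      rw [psh2]
      match j with
      | 0 => simp [v3, v4]
      | 1 => simp [v3, v4]
      | 2 => simp [v3, v4]
      | 3 => simp [v3, v4]
      | (n + 4) => simp [v3, v4]
    have e2 : psh 2 (v3 1 2 3) (v3 0 1 1) = v4 0 0 1 1 := by
      funext j
      rw [psh2]
      match j with
      | 0 => simp [v3, v4]
      | 1 => simp [v3, v4]
      | 2 => simp [v3, v4]
      | 3 => simp [v3, v4]
      | (n + 4) => simp [v3, v4]
    rw [e1, e2] at h1
    exact h1
  -- the one letter identity in `G2`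
  have x3 : L1 (GT 3 (TB (O1 (FC.ofFIC β)))) 2 (v3 0 2 1) (v3 1 1 1) := by
    refine hGTK 3 _ (TB_ext _) (TB_deg _) 2 _ _ (by simp [deg2, v3]) (by simp [deg2, v3])
      (by simp [v3]) (by simp [v3]) ?_
    intro f hf b
    have h1 := hf.mono 0 1 (by omega) (by omega)
    have h2 := hf.mono 1 2 (by omega) (by omega)
    have h3 := hf.le 2 (by omega)
    unfold TB
    simp only [psh2, v3]
    generalize f 0 = p at h1
    generalize f 1 = q at h1 h2
    generalize f 2 = r at h2 h3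
    interval_cases r <;> interval_cases q <;> interval_cases p <;> simp
  have x4 : L1 (GT 3 (TB (O1 (FC.ofFIC β)))) 3 (v4 0 2 0 1) (v4 1 1 0 1) := by
    refine pushR (FC.ofFIC (GT 3 (TB (O1 (FC.ofFIC β))))) 3 (v3 0 1 3)
      (bmap3 (by omega) (by omega) (by omega)) x3 ?_ ?_
    · intro j hj; interval_cases j <;> simp [psh2, v3, v4]
    · intro j hj; interval_cases j <;> simp [psh2, v3, v4]
  have fin := hLNN β H.th hNC (hGAA β H.cl) (hRGA β H.cl) H.md _ _ leA leB 3 (v4 0 2 0 1)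
    (v4 1 1 0 1) (v4 0 0 1 1) 3 (by simp [deg3, v4]) (by simp [deg3, v4]) (by simp [deg3, v4])
    (by omega) x2 x4
  rcases fin with fin | fin
  · exact hGTN 3 3 TA TA_ext TA_last (by omega) _ _ (by simp [TA, v4]) fin
  · exact hGTN 3 3 _ (TB_ext _) (TB_last _) (by omega) _ _ (by simp [TB, v4]) fin

end Pool.Agent.MVO.H51
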